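import Mathlib
import Pool.Agent.Q133.CliqueRoots

set_option autoImplicit false

/-!
# `l`-connected chordal `K_{l+3}`-free graphs have only real clique roots
-/

open Polynomial

namespace Pool.Agent.Results.MP_77abd0_co.OnlyCliqueRoots

/-- A graph is chordal if it has no induced cycle of length at least `4`. -/
def IsChordal {V : Type} (G : SimpleGraph V) : Prop :=
  ∀ n : ℕ, 4 ≤ n → IsEmpty (SimpleGraph.cycleGraph n ↪g G)

/-- `G` is `l`-connected: it has at least `l + 1` vertices and stays connected after deleting any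
set of fewer than `l` vertices. -/
def IsLConnected {V : Type} [Fintype V] (l : ℕ) (G : SimpleGraph V) : Prop :=
  l + 1 ≤ Fintype.card V ∧ ∀ S : Finset V, S.card < l → (G.induce ((S : Set V)ᶜ)).Connected

open Classical in
/-- The clique polynomial `C(G, x) = ∑_K x^|K|`, the sum over all cliques `K` of `G` (the empty
clique included); the coefficient of `x^k` is the number of cliques with `k` vertices. -/
noncomputable def cliquePoly {V : Type} [Fintype V] (G : SimpleGraph V) : ℝ[X] :=
  ∑ K ∈ Finset.univ.filter (fun K : Finset V => G.IsClique (K : Set V)), X ^ K.card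

/-- **Theorem.** For every `l ≥ 1`, every `l`-connected chordal `K_{l+3}`-free finite graph has only
clique roots: every complex root of its clique polynomial is real. -/
theorem result (l : ℕ) (hl : 1 ≤ l) {V : Type} [Fintype V] (G : SimpleGraph V)
    (hchordal : IsChordal G) (hconn : IsLConnected l G) (hfree : G.CliqueFree (l + 3)) (z : ℂ)
    (hz : aeval z (cliquePoly G) = 0) : z.im = 0 := by
  classical
  have hK : Q133.CliqueRoots.KConn G l Finset.univ := by
    refine ⟨by rw [Finset.card_univ]; exact hconn.1, fun S _ hS => ?_⟩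
    intro a ha b hb
    have ha' : a ∈ ((S : Set V)ᶜ) := by simpa using ha
    have hb' : b ∈ ((S : Set V)ᶜ) := by simpa using hb
    obtain ⟨w⟩ := (hconn.2 S hS).preconnected ⟨a, ha'⟩ ⟨b, hb'⟩
    have key : ∀ (x y : ((S : Set V)ᶜ : Set V)), (G.induce ((S : Set V)ᶜ)).Walk x y →
        Q133.CliqueRoots.Reach G (Finset.univ \ S) x.1 y.1 := by
      intro x y w
      induction w with
      | nil => exact Relation.ReflTransGen.refl
      | @cons u v w h _ ih =>
        refine Relation.ReflTransGen.head ⟨h, ?_, ?_⟩ ih
        · exact Finset.mem_sdiff.mpr ⟨Finset.mem_univ _, fun hh => u.2 (Finset.mem_coe.mpr hh)⟩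
        · exact Finset.mem_sdiff.mpr ⟨Finset.mem_univ _, fun hh => v.2 (Finset.mem_coe.mpr hh)⟩
    exact key _ _ w
  obtain ⟨α, β, hab⟩ := Q133.CliqueRoots.cp_form hchordal l hfree _ Finset.univ rfl hK
  have hcp : cliquePoly G = Q133.CliqueRoots.cp G Finset.univ := by
    rw [cliquePoly, Q133.CliqueRoots.cp, Finset.powerset_univ]
  rw [hcp, hab] at hz
  simp only [map_mul, map_pow, map_add, map_one, aeval_X, aeval_C] at hz
  rcases mul_eq_zero.mp hz with h | h
  · have h1 : 1 + z = 0 := (pow_eq_zero_iff (by omega : l ≠ 0)).mp h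
    have h2 : z = -1 := (eq_neg_of_add_eq_zero_right h1)
    rw [h2]; simp
  · refine Q133.CliqueRoots.quad_real α β z ?_
    simpa using h

end Pool.Agent.Results.MP_77abd0_co.OnlyCliqueRoots
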